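import Mathlib

/-! Definitions and interface statements for the distortion of the germ `x - x^2` in class `C^2`.
All maps live in the coordinate `y = 1/x` near `+∞`. -/

namespace Pool.Agent.H113Z.Dist
open Filter Topology Set Asymptotics

abbrev Pm := Equiv.Perm ℝ

noncomputable abbrev D (k : ℕ) (f : ℝ → ℝ) : ℝ → ℝ := iteratedDeriv k f

/-- increasing `C^4` diffeomorphism of the line -/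
def Good (f : Pm) : Prop := ContDiff ℝ 4 f ∧ ∀ x, 0 < deriv f x
/-- increasing `C^2` bijection -/
def G2 (f : Pm) : Prop := ContDiff ℝ 2 f ∧ StrictMono f
/-- identity outside the open interval `(a,b)` -/
def Supp (f : Pm) (a b : ℝ) : Prop := ∀ x, x ≤ a ∨ b ≤ x → f x = x
/-- `f` is `η`-close to a translation at the point `x`, in `C^4` at scale `s` -/
def Bd (f : ℝ → ℝ) (x s η : ℝ) : Prop :=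
  |deriv f x - 1| ≤ η ∧ |D 2 f x| ≤ η / s ∧ |D 3 f x| ≤ η / s ^ 2 ∧ |D 4 f x| ≤ η / s ^ 3
/-- commutator -/
def cm (f g : Pm) : Pm := f * g * f⁻¹ * g⁻¹
/-- translation -/
def tr (c : ℝ) : Pm := Equiv.addRight c
noncomputable def S2 : Pm := Equiv.mulLeft₀ 2 two_ne_zero
noncomputable def lam : ℝ := 1 + √2
theorem lam_pos : 0 < lam := by unfold lam; positivity
noncomputable def SL : Pm := Equiv.mulLeft₀ lam lam_pos.ne'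

@[simp] theorem tr_apply (c x : ℝ) : tr c x = x + c := rfl
@[simp] theorem S2_apply (x : ℝ) : S2 x = 2 * x := rfl
@[simp] theorem SL_apply (x : ℝ) : SL x = lam * x := rfl

/-! ### Toolkit -/

def ToolStmt : Prop :=
  (∀ f g : Pm, Good f → Good g → Good (f * g)) ∧
  (∀ f : Pm, Good f → Good f⁻¹) ∧
  (∀ f : Pm, Good f → StrictMono f) ∧
  (∀ c : ℝ, Good (tr c) ∧ ∀ x s : ℝ, Bd (tr c) x s 0) ∧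
  (∀ F : ℝ → ℝ, ContDiff ℝ 4 F → (∀ x, 1 / 2 ≤ deriv F x) → ∃ f : Pm, ⇑f = F ∧ Good f) ∧
  (∀ (f g : ℝ → ℝ) (x : ℝ), ContDiffAt ℝ 4 f (g x) → ContDiffAt ℝ 4 g x →
    D 4 (f ∘ g) x = D 4 f (g x) * deriv g x ^ 4 + 6 * D 3 f (g x) * deriv g x ^ 2 * D 2 g x
      + 3 * D 2 f (g x) * D 2 g x ^ 2 + 4 * D 2 f (g x) * deriv g x * D 3 g x
      + deriv f (g x) * D 4 g x) ∧
  (∀ (f g : ℝ → ℝ) (x s ηf ηg : ℝ), ContDiffAt ℝ 4 f (g x) → ContDiffAt ℝ 4 g x → 0 < s →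
    ηg ≤ 1 → Bd g x s ηg → Bd f (g x) s ηf → Bd (f ∘ g) x s (ηg + 60 * ηf)) ∧
  (∀ (f : Pm) (x s η : ℝ), Good f → 0 < s → η ≤ 1 / 100 → Bd f x s η →
    Bd (⇑f⁻¹) (f x) s (60 * η)) ∧
  (∀ (L : List Pm) (s η : ℝ), 0 < s → 0 ≤ η → (∀ f ∈ L, Good f ∧ ∀ x, Bd f x s η) →
    60 * L.length * η ≤ 1 → Good L.prod ∧ ∀ x, Bd (⇑L.prod) x s (60 * L.length * η))

def CutStmt : Prop :=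
  ∀ (ρ : Pm) (α β : ℝ), Good ρ → α < β → (⇑ρ =ᶠ[𝓝 α] id) → (⇑ρ =ᶠ[𝓝 β] id) →
    ∃ u : Pm, Good u ∧ Supp u α β ∧ (∀ x ∈ Icc α β, ⇑u =ᶠ[𝓝 x] ⇑ρ) ∧
      (∀ x, x ≤ α ∨ β ≤ x → ⇑u =ᶠ[𝓝 x] id)

/-! ### Local perfectness with loss of derivatives -/

def Hyp (K : ℝ) (u : Pm) (α β s η a τ : ℝ) (l : ℕ) (M0 M1 r : ℝ) (T : Finset ℝ) : Prop :=
  Good u ∧ Supp u α β ∧ α ≤ β ∧ 0 < τ ∧ τ ≤ s ∧ 0 < η ∧ (∀ x, Bd u x s η) ∧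
  (∀ x, |u x - x| ≤ a) ∧ (β - α) / τ + 4 ≤ l ∧ K * l * η ≤ 1 ∧ 4 * l * a ≤ τ ∧
  0 ≤ M0 ∧ 0 ≤ M1 ∧ 0 ≤ r ∧ (∀ x, |D 2 u x| ≤ M0 + M1) ∧
  (∀ x, (∀ t ∈ T, r < |x - t|) → |D 2 u x| ≤ M0)

noncomputable def Om (τ : ℝ) (l : ℕ) (M0 M1 r : ℝ) (T : Finset ℝ) : ℝ :=
  l * M0 + T.card * (r / τ + 1) * M1

def RollStmt : Prop :=
  ∀ (u : Pm) (α β s η a τ : ℝ) (l : ℕ) (M0 M1 r : ℝ) (T : Finset ℝ) (Γ : ℝ),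
    Hyp 60 u α β s η a τ l M0 M1 r T →
    ∃ F : Pm, Good F ∧ (∀ x ≤ α, F x = x) ∧ (∀ x ≤ Γ, F (x + τ) = u (F x + τ)) ∧
      ∀ x ≤ Γ, |F x - x| ≤ τ / 4 ∧ Bd F x s (60 * l * η) ∧
        |D 2 F x| ≤ 100 * Om τ l M0 M1 r T

def StepStmt : Prop :=
  ∃ K : ℝ, 60 ≤ K ∧
  ∀ (u : Pm) (α β s η a τ : ℝ) (l : ℕ) (M0 M1 r : ℝ) (T : Finset ℝ) (γ ℓ : ℝ),
    Hyp K u α β s η a τ l M0 M1 r T → β + 10 * τ ≤ γ → K * τ ≤ ℓ →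
    ∃ P Q v : Pm, Good P ∧ Good Q ∧ Good v ∧
      Supp P (α - 2 * τ - ℓ) (γ + 6 * τ + ℓ) ∧ Supp Q (α - 2 * τ - ℓ) (γ + 6 * τ + ℓ) ∧
      Supp v (γ - τ) (γ + 3 * τ) ∧ u * v = cm P Q ∧
      ∀ x, Bd v x τ (K * l * η * (τ / s) ^ 3) ∧ |v x - x| ≤ K * l * η * (τ / s) ^ 3 * τ ∧
        |D 2 P x| ≤ K * (Om τ l M0 M1 r T + l * η * τ ^ 2 / s ^ 3 + τ / ℓ ^ 2) ∧
        |D 2 Q x| ≤ K * (τ / ℓ ^ 2)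

def PerfStmt : Prop :=
  ∃ K : ℝ, 60 ≤ K ∧
  ∀ (u : Pm) (α β s η a τ : ℝ) (l : ℕ) (M0 M1 r : ℝ) (T : Finset ℝ) (ℓ : ℝ),
    Hyp K u α β s η a τ l M0 M1 r T → K * τ ≤ ℓ →
    ∃ P1 Q1 P2 Q2 : Pm, u = cm P1 Q1 * cm P2 Q2 ∧
      ∀ f ∈ [P1, Q1, P2, Q2], G2 f ∧ Supp f (α - ℓ) (β + 3 * ℓ) ∧
        ∀ x, |D 2 f x| ≤ K * (Om τ l M0 M1 r T + l * η * τ ^ 2 / s ^ 3 + τ / ℓ ^ 2)

/-! ### Storing and extracting -/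

/-- `F y = l y + c + o(1)` in the sense that makes `x ↦ 1 / F (1 / x)` of class `C^2` at `0` -/
def OC (F : ℝ → ℝ) (l c : ℝ) : Prop :=
  (∃ Y, ContDiffOn ℝ 2 F (Ioi Y)) ∧ Tendsto (fun y => F y - l * y - c) atTop (𝓝 0) ∧
  Tendsto (fun y => y * (deriv F y - l)) atTop (𝓝 0) ∧
  Tendsto (fun y => y ^ 2 * D 2 F y) atTop (𝓝 0)

def Fam {ν : Type} (lo hi : ν → ℝ) : Prop :=
  (∀ k, 0 < lo k ∧ lo k ≤ hi k ∧ hi k ≤ 2 * lo k) ∧ (∀ R, {k | lo k ≤ R}.Finite) ∧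
  ∀ B : ℕ, ∃ R, ∀ k k', R ≤ lo k → ∀ d : ℤ, |d| ≤ B → (d ≠ 0 ∨ k ≠ k') →
    ∀ x ∈ Icc (lo k) (hi k), lam ^ d * x ∉ Icc (lo k') (hi k')

def Sm {ν : Type} (lo hi : ν → ℝ) (P : ν → Pm) : Prop :=
  (∀ k, G2 (P k) ∧ Supp (P k) (lo k) (hi k)) ∧
  ∀ ε > 0, ∃ R, ∀ k, R ≤ lo k → ∀ x, |D 2 (P k) x| ≤ ε / lo k ^ 2

noncomputable def Cw (i : ℕ) (b1 b2 : Pm) : Pm :=
  cm ((SL ^ 3 ^ i)⁻¹ * b1 * SL ^ 3 ^ i) ((SL ^ (2 * 3 ^ i))⁻¹ * b2 * SL ^ (2 * 3 ^ i))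

def AbsStmt : Prop :=
  ∀ (ν : Type) (lo hi : ν → ℝ) (P Q : ℕ → ν → Pm), Fam lo hi →
    (∀ i, Sm lo hi (P i)) → (∀ i, Sm lo hi (Q i)) →
    ∃ b1 b2 : Pm, StrictMono b1 ∧ StrictMono b2 ∧ OC b1 1 0 ∧ OC b2 1 0 ∧
      ∀ i, ∀ᶠ y in atTop, (∀ k, y ∈ Icc (lo k) (hi k) → Cw i b1 b2 y = cm (P i k) (Q i k) y) ∧
        ((∀ k, y ∉ Icc (lo k) (hi k)) → Cw i b1 b2 y = y)

abbrev IZ := {p : ℕ × ℕ // 3 ≤ p.1 ∧ p.1 ≤ p.2 ∧ p.2 ≤ 2 * p.1}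
noncomputable def loZ (k : IZ) : ℝ := 2 ^ k.1.1 * ((k.1.2 : ℝ) - 2 / (k.1.1 : ℝ) ^ 2)
noncomputable def hiZ (k : IZ) : ℝ := 2 ^ k.1.1 * ((k.1.2 : ℝ) + 4 / (k.1.1 : ℝ) ^ 2)
abbrev IE := {e : ℕ // 3 ≤ e}
noncomputable def rE (e : ℕ) : ℝ := Real.log e + 10
noncomputable def loE (k : IE) : ℝ := 2 ^ (k.1 + 1) * (k.1 : ℝ) * (1 - 2 / rE k.1)
noncomputable def hiE (k : IE) : ℝ := 2 ^ (k.1 + 1) * (k.1 : ℝ) * (1 + 4 / rE k.1)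

/-- half width of the exceptional zones in block `e` -/
noncomputable def rz (e : ℕ) : ℝ := 3 * 2 ^ e / (e : ℝ) ^ 14
noncomputable def aE (i e : ℕ) : ℝ := 2 ^ e * (2 * (e : ℝ) - 2 * i - 1 / 2)
noncomputable def bE (e : ℕ) : ℝ := 2 ^ e * (2 * (e : ℝ) + 1 / 2)

/-- properties of the `i`-th remainder -/
def Rem (i : ℕ) (ρ : Pm) : Prop :=
  Good ρ ∧ ∃ (C X : ℝ) (e0 : ℕ), 0 < C ∧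
    (∀ x, X ≤ x → |ρ x - x| ≤ C / x ∧ Bd ρ x (x ^ (3 / 4 : ℝ)) (C * x ^ (-5 / 4 : ℝ))) ∧
    (∀ e n : ℕ, e0 ≤ e → e ≤ n → n + 2 * i ≤ 2 * e → ∀ x : ℝ,
      2 ^ e * ((n : ℝ) - 1) + rz e ≤ x → x ≤ 2 ^ e * n - rz e → ρ x = x) ∧
    (∀ e n : ℕ, e0 ≤ e → e ≤ n → n + 2 * i < 2 * e → ∀ x : ℝ,
      |x - 2 ^ e * n| ≤ 2 * rz e → |D 2 ρ x| ≤ C * x ^ (-19 / 5 : ℝ)) ∧
    (∀ e : ℕ, e0 ≤ e → ∀ x ∈ Icc (aE i e) (bE e),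
      |D 2 ρ x| ≤ C * x ^ (-19 / 5 : ℝ) + C * (e : ℝ) ^ 11 / 8 ^ e ∧
      ((∀ m : ℤ, C * 2 ^ e / (e : ℝ) ^ 14 < |x - 2 ^ e * m|) →
        |D 2 ρ x| ≤ C * x ^ (-19 / 5 : ℝ)))

def ZoneStmt : Prop :=
  ∀ (i : ℕ) (ρ : Pm), Rem i ρ → ∃ P1 Q1 P2 Q2 : IZ → Pm,
    Sm loZ hiZ P1 ∧ Sm loZ hiZ Q1 ∧ Sm loZ hiZ P2 ∧ Sm loZ hiZ Q2 ∧
    ∃ R, ∀ k : IZ, R ≤ loZ k → ∀ x : ℝ,
      ((k.1.2 + 2 * i < 2 * k.1.1 ∧ |x - 2 ^ k.1.1 * k.1.2| ≤ 2 * rz k.1.1) →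
        (cm (P1 k) (Q1 k) * cm (P2 k) (Q2 k)) x = ρ x) ∧
      (¬ (k.1.2 + 2 * i < 2 * k.1.1 ∧ |x - 2 ^ k.1.1 * k.1.2| ≤ 2 * rz k.1.1) →
        (cm (P1 k) (Q1 k) * cm (P2 k) (Q2 k)) x = x)

def ExcStmt : Prop :=
  ∀ (i : ℕ) (ρ : Pm), Rem i ρ → ∃ P1 Q1 P2 Q2 : IE → Pm,
    Sm loE hiE P1 ∧ Sm loE hiE Q1 ∧ Sm loE hiE P2 ∧ Sm loE hiE Q2 ∧
    ∃ R, ∀ k : IE, R ≤ loE k → ∀ x : ℝ,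
      (x ∈ Icc (aE i k.1) (bE k.1) → (cm (P1 k) (Q1 k) * cm (P2 k) (Q2 k)) x = ρ x) ∧
      (x ∉ Icc (aE i k.1) (bE k.1) → (cm (P1 k) (Q1 k) * cm (P2 k) (Q2 k)) x = x)

def KillStmt : Prop :=
  ∀ ρ : ℕ → Pm, (∀ i, Rem i (ρ i)) → ∃ b : Fin 8 → Pm,
    (∀ k, StrictMono (b k) ∧ OC (b k) 1 0) ∧
    ∀ i, ∀ᶠ y in atTop, ρ i y =
      (Cw i (b 0) (b 1) * Cw i (b 2) (b 3) * Cw i (b 4) (b 5) * Cw i (b 6) (b 7)) y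

/-! ### The piecewise affine vector field -/

noncomputable def wd (t : ℝ) : ℝ := 1 / t ^ 14
noncomputable def lin (e n : ℕ) (y : ℝ) : ℝ :=
  (2 ^ e * (2 * (n : ℝ) - 1) - y) / (4 ^ e * (n : ℝ) * ((n : ℝ) - 1))
noncomputable def kap (e n : ℕ) : ℝ :=
  if n < 2 * e then 2 / (4 ^ e * ((n : ℝ) - 1) * n * (n + 1))
  else 3 / (4 ^ e * ((n : ℝ) - 1) * n * (n + 2))
noncomputable def ramp (u : ℝ) : ℝ := u * Real.smoothTransition ((u + 1) / 2)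
noncomputable def Fz (e n : ℕ) (y : ℝ) : ℝ :=
  lin e n y + kap e n * (2 ^ e * wd n) * ramp ((y - 2 ^ e * n) / (2 ^ e * wd n))

def ZLoc (z : ℝ → ℝ) : Prop :=
  ∀ e n : ℕ, 3 ≤ e → e ≤ n → n ≤ 2 * e → ∀ y : ℝ, |y - 2 ^ e * n| < 3 / 4 * 2 ^ e →
    z y = Fz e n y

def Cover : Prop :=
  ∀ y : ℝ, 24 ≤ y → ∃ e n : ℕ, 3 ≤ e ∧ e ≤ n ∧ n ≤ 2 * e ∧ |y - 2 ^ e * n| ≤ 11 / 16 * 2 ^ e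

def OP (f : ℝ → ℝ) (r : ℝ) : Prop := f =O[atTop] fun y : ℝ => y ^ r

def ZO (z : ℝ → ℝ) : Prop :=
  OP z (-1) ∧ OP (deriv z) (-2) ∧ OP (D 2 z) (-29 / 10) ∧ OP (D 3 z) (-39 / 10) ∧
  OP (D 4 z) (-49 / 10) ∧ OP (D 5 z) (-59 / 10)

def Z4 (z : ℝ → ℝ) : Prop :=
  ∃ (C : ℝ) (e0 : ℕ), ∀ e : ℕ, e0 ≤ e → ∀ y : ℝ, 2 ^ e * ((e : ℝ) - 1) ≤ y →
    y ≤ 2 ^ (e + 1) * (2 * (e : ℝ) + 2) → |D 2 z y| ≤ C * (e : ℝ) ^ 11 / 8 ^ e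

def Z7 (z : ℝ → ℝ) : Prop :=
  Tendsto (fun y => y * z y) atTop (𝓝 1) ∧ Tendsto (fun y => y ^ 2 * deriv z y) atTop (𝓝 (-1)) ∧
  ∃ Y, MeasureTheory.IntegrableOn (fun y => z y - 1 / y) (Ioi Y)

def Z235 (z : ℝ → ℝ) : Prop :=
  ∃ e0 : ℕ,
    (∀ e n : ℕ, e0 ≤ e → e ≤ n → n ≤ 2 * e → ∀ y : ℝ,
      2 ^ e * ((n : ℝ) - 1 + wd ((n : ℝ) - 1)) ≤ y → y ≤ 2 ^ e * ((n : ℝ) - wd n) →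
      z y = lin e n y) ∧
    (∀ e i n : ℕ, e0 ≤ e → e + i ≤ n → n < 2 * e → ∀ y : ℝ, |y - 2 ^ e * n| ≤ 2 ^ e / 2 →
      z (2 ^ i * y) = z y / 2 ^ i) ∧
    (∀ e : ℕ, e0 ≤ e → ∀ y : ℝ, 2 ^ e * ((e : ℝ) - 1) ≤ y → y ≤ 2 ^ (e + 1) * (2 * (e : ℝ) + 2) →
      (∀ m : ℤ, 2 ^ (e + 1) * wd ((e : ℝ) - 1) < |y - 2 ^ e * m|) → D 2 z y = 0)

def Small3 (z : ℝ → ℝ) (ε : ℝ) : Prop := ∀ x, |z x| ≤ ε ∧ |deriv z x| ≤ ε ∧ |D 2 z x| ≤ ε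

def ZStmt : Prop :=
  ∀ ε > 0, ∃ z : ℝ → ℝ, ContDiff ℝ 6 z ∧ Small3 z ε ∧ ZO z ∧ Z4 z ∧ Z7 z ∧ Z235 z

/-! ### Fatou coordinates -/

noncomputable def gy (a y : ℝ) : ℝ := y ^ 2 / (y - a)

def As (a : ℝ) (F : ℝ → ℝ) : Prop :=
  (∃ Y, ContDiffOn ℝ 2 F (Ioi Y)) ∧
  Tendsto (fun y => F y - (y - a * Real.log y)) atTop (𝓝 0) ∧
  Tendsto (fun y => y * (deriv F y - 1)) atTop (𝓝 (-a)) ∧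
  Tendsto (fun y => y ^ 2 * D 2 F y) atTop (𝓝 a)

def FatStmt (a : ℝ) : Prop :=
  ∃ Φ : Pm, StrictMono Φ ∧ As a Φ ∧ ∀ᶠ y in atTop, Φ (gy a y) = Φ y + a

def ConjStmt : Prop :=
  ∀ (a : ℝ) (F1 F2 : Pm), StrictMono F1 → StrictMono F2 → As a F1 → As a F2 →
    OC (⇑(F2⁻¹ * F1)) 1 0

def PhiStmt : Prop :=
  ∀ (a : ℝ) (z : ℝ → ℝ), (a = 1 ∨ a = -1) → ContDiff ℝ 6 z → (∀ x, |z x| ≤ 1 / 2) → Z7 z →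
    ∃ φ : Pm, Good φ ∧ (∀ x, HasDerivAt φ (1 / (1 + a * z x)) x) ∧ As a φ

/-! ### Asymptotic classes -/

def Dcl (F : Pm) : Prop :=
  Good F ∧ (∃ M, ∀ y, |F y - y| ≤ M) ∧ OP (fun y => deriv F y - 1) (-2) ∧ OP (D 2 F) (-2) ∧
  OP (D 3 F) (-11 / 4) ∧ OP (D 4 F) (-7 / 2)

def Fcl (F : Pm) (c : ℝ) (ζ : ℝ → ℝ) : Prop :=
  Dcl F ∧ OP (fun y => F y - y - c) (-1) ∧ OP ζ (-29 / 10) ∧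
  OP (fun y => D 2 F y - ζ y) (-19 / 5)

def FclStmt1 : Prop :=
  (∀ (f g : Pm) (c c' : ℝ) (ζ : ℝ → ℝ), Fcl f c (fun _ => 0) → Fcl g c' ζ →
    Fcl (f * g) (c + c') ζ) ∧
  (∀ (g : Pm) (c : ℝ) (ζ : ℝ → ℝ) (i : ℕ), Fcl g c ζ →
    Fcl (S2 ^ i * g * (S2 ^ i)⁻¹) (2 ^ i * c) (fun y => ζ (y / 2 ^ i) / 2 ^ i)) ∧
  (∀ (f : Pm) (c : ℝ) (ζ : ℝ → ℝ), Fcl f c ζ → OC f 1 c)

def FclStmt2 : Prop :=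
  ∀ (G W : Pm) (c : ℝ) (ζ1 ζ2 : ℝ → ℝ), Fcl G c ζ1 → Fcl W c ζ2 →
    ∃ C X : ℝ, 0 < C ∧ ∀ x, X ≤ x → |(G * W⁻¹) x - x| ≤ C / x ∧
      Bd (⇑(G * W⁻¹)) x (x ^ (3 / 4 : ℝ)) (C * x ^ (-5 / 4 : ℝ)) ∧
      |D 2 (⇑(G * W⁻¹)) x| ≤ 2 * |ζ1 (W⁻¹ x) - ζ2 (W⁻¹ x)| + C * x ^ (-19 / 5 : ℝ)

def FlowStmt : Prop :=
  ∀ (a : ℝ) (z : ℝ → ℝ) (φ : Pm) (n : ℕ), (a = 1 ∨ a = -1) → ContDiff ℝ 6 z →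
    (∀ x, |z x| ≤ 1 / 2) → ZO z → Good φ → (∀ x, HasDerivAt φ (1 / (1 + a * z x)) x) →
    Fcl (φ⁻¹ * tr (a * n) * φ) (a * n) (fun y => n * D 2 z y)

def VPsiStmt : Prop :=
  ∃ (ψ : ℝ → ℝ) (ε : ℝ), 0 < ε ∧ ε ≤ 1 / 2 ∧ (∀ s, s * ψ s = 1 - Real.exp (-s)) ∧
    ∀ (a : ℝ) (z : ℝ → ℝ), (a = 1 ∨ a = -1) → ContDiff ℝ 6 z → Small3 z ε → ZO z →
      ∃ V Ψ : Pm, (∀ x, V x = x + z x * ψ (-deriv z x)) ∧ (∀ x, Ψ x = x + a * ψ (-deriv z x)) ∧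
        Fcl V 0 (D 2 z) ∧ Fcl Ψ a (fun _ => 0) ∧ (∀ x, |V x - x| ≤ 1) ∧ (∀ x, |Ψ x - x| ≤ 2)

def AffStmt : Prop :=
  ∀ (a : ℝ) (z ψ : ℝ → ℝ) (φ V Ψ : Pm) (i : ℕ) (y p s : ℝ), (a = 1 ∨ a = -1) →
    (∀ x, |z x| ≤ 1 / 2) → (∀ x, HasDerivAt φ (1 / (1 + a * z x)) x) →
    (∀ s, s * ψ s = 1 - Real.exp (-s)) → (∀ x, V x = x + z x * ψ (-deriv z x)) →
    (∀ x, Ψ x = x + a * ψ (-deriv z x)) → (∀ x, |V x - x| ≤ 1) → (∀ x, |Ψ x - x| ≤ 2) → 0 < s →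
    (∀ x, |x - y| ≤ 4 * 4 ^ i →
      z x = (p - x) * s ∧ z (x / 2 ^ i) = (p / 2 ^ i - x / 2 ^ i) * (4 ^ i * s)) →
    (φ⁻¹ * tr (a * (4 ^ i : ℕ)) * φ) y = (S2 ^ i * (Ψ ^ 2 ^ i * V) * (S2 ^ i)⁻¹) y

/-! ### Back to germs at `0` -/

noncomputable def ev {ι : Type} (γ : ι → Pm) (w : List (ι × Bool)) : Pm :=
  (w.map fun p => if p.2 then γ p.1 else (γ p.1)⁻¹).prod

def Final : Prop :=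
  ∃ S : Finset (ℝ → ℝ), (fun x : ℝ => x - x ^ 2) ∈ S ∧
    (∀ f ∈ S, ContDiffAt ℝ 2 f 0 ∧ f 0 = 0 ∧
      ∃ f' ∈ S, f ∘ f' =ᶠ[𝓝 0] id ∧ f' ∘ f =ᶠ[𝓝 0] id) ∧
    ∃ w : ℕ → List (ℝ → ℝ), (∀ n, ∀ f ∈ w n, f ∈ S) ∧
      (∀ n, (w n).foldr (fun f g => f ∘ g) id =ᶠ[𝓝 0] (fun x : ℝ => x - x ^ 2)^[n]) ∧
      Tendsto (fun n => ((w n).length : ℝ) / n) atTop (𝓝 0)

/-- the germ at `0` glued from a map near `+∞` and a map near `-∞` (the latter reflected) -/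
noncomputable def xm (F G : ℝ → ℝ) (x : ℝ) : ℝ :=
  if 0 < x then 1 / F (1 / x) else if x < 0 then -1 / G (-1 / x) else 0

def XmStmt : Prop :=
  ∀ (F G : ℝ → ℝ) (l c : ℝ), 0 < l → OC F l c → OC G l (-c) →
    ContDiffAt ℝ 2 (xm F G) 0 ∧ HasDerivAt (xm F G) (1 / l) 0

def ConvStmt : Prop :=
  ∀ (ι : Type) [Fintype ι] (γp γm : ι → Pm) (l c : ι → ℝ) (w : ℕ → List (ι × Bool)),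
    (∀ k, 0 < l k ∧ StrictMono (γp k) ∧ StrictMono (γm k) ∧ OC (γp k) (l k) (c k) ∧
      OC (γm k) (l k) (-c k)) →
    Tendsto (fun i => ((w i).length : ℝ) / 4 ^ i) atTop (𝓝 0) →
    (∀ i, ∀ᶠ y in atTop, ev γp (w i) y = (gy 1)^[4 ^ i] y) →
    (∀ i, ∀ᶠ y in atTop, ev γm (w i) y = (gy (-1))^[4 ^ i] y) → Final

end Pool.Agent.H113Z.Dist
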